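import Pool.Agent.Helper77.SND.Stmts

set_option autoImplicit false

/-! HB: the base case of the sparse hypergraphs. -/

namespace Pool.Agent.Helper77.SND

theorem st_HB : ST_HB := by
  intro K hK
  classical
  haveI := Fintype.ofFinite K
  refine ⟨K ↪ Fin (2 * Fintype.card K), Fin (2 * Fintype.card K), inferInstance, inferInstance,
    fun α k => α k, fun α => α.injective, ?_, ?_⟩
  · intro F hF hc
    obtain ⟨α, hα⟩ := hF
    exact ⟨α, hα, fun β hβ β' _ hne _ => absurd (Finset.card_le_one.1 hc β hβ α hα) hne⟩
  · intro χ
    have hb : ∃ b : Bool, Fintype.card K ≤ Fintype.card {l // χ l = b} := by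
      by_contra hneg
      push Not at hneg
      have h1 := hneg true
      have h2 := hneg false
      have h3 : Fintype.card {l // χ l = true} + Fintype.card {l // χ l = false} =
          2 * Fintype.card K := by
        have h4 : Fintype.card {l // χ l = false} = Fintype.card {l // ¬ χ l = true} :=
          Fintype.card_congr (Equiv.subtypeEquivRight (fun l => by simp))
        have h5 := Fintype.card_subtype_compl (fun l => χ l = true)
        have h6 := Fintype.card_subtype_le (fun l => χ l = true)
        rw [Fintype.card_fin] at h5 h6
        omega
      omega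
    obtain ⟨b, hb⟩ := hb
    obtain ⟨f⟩ : Nonempty (K ↪ {l // χ l = b}) := Function.Embedding.nonempty_of_card_le hb
    exact ⟨f.trans (Function.Embedding.subtype _), fun k k' => (f k).2.trans (f k').2.symm⟩

end Pool.Agent.Helper77.SND
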